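import Pool.Agent.helper45.C0.Main

set_option autoImplicit false

/-!
# Three-valued cross-correlation of p-ary m-sequences: for fixed `n` boundedly many decimations

For every `n` there are `N` and `B` such that for all primes `p > 3` every three-valued `d` modulo `p^n - 1`
(for even `n`: not of the exceptional spectrum) satisfies `N d = ∑ b_i p^i` modulo `p^n - 1` with `|b_i| ≤ B`; so
there are at most `N (2 B + 1)^n` of them.
-/

namespace Pool.Agent.Results.MP_c072aa_co.BoundedlyMany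

/-- the set of the correlation values: the sums over `x ∈ Kˣ` of `exp(2πi Tr(c x - x^d)/p)`, `c ∈ Kˣ` -/
noncomputable def values (p : ℕ) (K : Type) [Field K] [Fintype K] [DecidableEq K]
    [Algebra (ZMod p) K] (d : ℕ) : Set ℂ :=
  Set.range (fun c : Kˣ => ∑ x : Kˣ,
    Complex.exp (2 * (Real.pi : ℂ) * Complex.I *
      (((Algebra.trace (ZMod p) K ((c : K) * (x : K) - (x : K) ^ d)).val : ℕ) : ℂ) / (p : ℂ)))

/-- the exceptional spectrum, only for even `n`: the values are `-1`, `p^(n/2) a - 1`, `-p^(n/2) b - 1` with `a, b ≥ 1`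
prime to `p` and `a + b` a power of `p` -/
def Exceptional (p n : ℕ) (R : Set ℂ) : Prop :=
  Even n ∧ ∃ a b s : ℕ, 0 < a ∧ 0 < b ∧ ¬ p ∣ a ∧ ¬ p ∣ b ∧ a + b = p ^ s ∧
    R = {-1, (p : ℂ) ^ (n / 2) * a - 1, -((p : ℂ) ^ (n / 2) * b) - 1}

theorem result : ∀ n : ℕ, 0 < n → ∃ N B : ℕ, 0 < N ∧ ∀ p : ℕ, p.Prime → 3 < p →
    ∀ (K : Type) [Field K] [Fintype K] [DecidableEq K] [Algebra (ZMod p) K],
      Fintype.card K = p ^ n →
      (∀ d : ℕ, Nat.Coprime d (p ^ n - 1) → (values p K d).ncard = 3 →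
        Exceptional p n (values p K d) ∨
        ∃ b : Fin n → ℤ, (∀ i, |b i| ≤ (B : ℤ)) ∧
          (N : ℤ) * d ≡ ∑ i : Fin n, b i * (p : ℤ) ^ (i : ℕ) [ZMOD (p : ℤ) ^ n - 1]) ∧
      {d : ℕ | d < p ^ n - 1 ∧ Nat.Coprime d (p ^ n - 1) ∧ (values p K d).ncard = 3 ∧
        ¬ Exceptional p n (values p K d)}.ncard ≤ N * (2 * B + 1) ^ n := by
  intro n hn
  obtain ⟨N, B, hN, h⟩ := Pool.Agent.helper45.C0.final n hn
  exact ⟨N, B, hN, fun p hp hp3 K _ _ _ _ hq => h p hp hp3 K hq (values p K) (fun _ => rfl)⟩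

end Pool.Agent.Results.MP_c072aa_co.BoundedlyMany
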