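import Pool.Agent.helper75.MS.Main

/-!
# Three-valued cross-correlation of p-ary m-sequences: the conjecture for all `n ≤ 7`, all `p > 3`
-/

namespace Pool.Agent.Results.MP_c072aa_co.SmallDegrees

/-- Q1 holds for every prime `p > 3` and every `n ≤ 7`. -/
theorem result :
    ∀ (p n d : ℕ), p.Prime → 3 < p → 0 < n → n ≤ 7 → Nat.Coprime d (p ^ n - 1) →
    ∀ (K : Type) [Field K] [Fintype K] [DecidableEq K] [Algebra (ZMod p) K],
      Fintype.card K = p ^ n →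
      (Set.range (fun c : Kˣ => ∑ x : Kˣ,
          Complex.exp (2 * (Real.pi : ℂ) * Complex.I *
            (((Algebra.trace (ZMod p) K ((c : K) * (x : K) - (x : K) ^ d)).val : ℕ) : ℂ)
            / (p : ℂ)))).ncard = 3 →
      ∃ i k : ℕ, 0 < k ∧ Odd (n / Nat.gcd n k) ∧
        ∃ e : ℕ, (e = (p ^ (2 * k) + 1) / 2 ∨ e = p ^ (2 * k) - p ^ k + 1) ∧
          (d ≡ e * p ^ i [MOD p ^ n - 1] ∨ d * e ≡ p ^ i [MOD p ^ n - 1]) := by
  intro p n d hp hp3 hn hn7 hd K _ _ _ _ hq h3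
  haveI : Fact p.Prime := ⟨hp⟩
  exact Pool.Agent.helper75.MS.main hp3 hn hn7 hq hd h3

end Pool.Agent.Results.MP_c072aa_co.SmallDegrees
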